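import Mathlib

set_option autoImplicit false

namespace Pool.Agent.H.MP_7f7c16_ag

open MvPolynomial

abbrev R := MvPolynomial (Fin 4) ℚ
abbrev B := MvPolynomial (Fin 2) ℚ
abbrev V := Fin 4 → ℚ

noncomputable def lin (a : V) : R := ∑ j, C (a j) * X j
noncomputable def io : B →ₐ[ℚ] R := aeval ![X 0, X 1]
def D (u w : V) : ℚ := u 2 * w 3 - u 3 * w 2
noncomputable def pr (u w : V) : R →ₐ[ℚ] B := aeval ![X 0, X 1,
  C ((w 0 * u 3 - u 0 * w 3) / D u w) * X 0 + C ((w 1 * u 3 - u 1 * w 3) / D u w) * X 1,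
  C ((u 0 * w 2 - w 0 * u 2) / D u w) * X 0 + C ((u 1 * w 2 - w 1 * u 2) / D u w) * X 1]
noncomputable def K (u w : V) : Ideal R := Ideal.span {lin u, lin w}

lemma pr_io (u w : V) (b : B) : pr u w (io b) = b := by
  have : (pr u w).comp io = AlgHom.id ℚ B := by
    ext i : 1
    fin_cases i <;> simp [pr, io]
  exact DFunLike.congr_fun this b

lemma pr_lin (u w x : V) (h : D u w ≠ 0) : pr u w (lin x) =
    C ((x 0 * D u w + x 2 * (w 0 * u 3 - u 0 * w 3) + x 3 * (u 0 * w 2 - w 0 * u 2)) / D u w) * X 0 +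
    C ((x 1 * D u w + x 2 * (w 1 * u 3 - u 1 * w 3) + x 3 * (u 1 * w 2 - w 1 * u 2)) / D u w) * X 1 := by
  simp only [add_div, mul_div_cancel_right₀ _ h, mul_div_assoc, map_add, map_mul]
  simp [pr, lin, Fin.sum_univ_four]
  ring

lemma redK {u w : V} (h : D u w ≠ 0) (f : R) : f - io (pr u w f) ∈ K u w := by
  induction f using MvPolynomial.induction_on with
  | C a => simp [io, pr]
  | add p q hp hq => simpa only [map_add, add_sub_add_comm] using add_mem hp hq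
  | mul_X p i hp =>
    have e : (C (D u w)⁻¹ : R) * (C (u 2) * C (w 3) - C (u 3) * C (w 2)) = 1 := by
      rw [← C_mul, ← C_mul, ← C_sub, ← C_mul]; exact congrArg C (inv_mul_cancel₀ h)
    have : X i - io (pr u w (X i)) ∈ K u w := by
      fin_cases i
      · simp [io, pr]
      · simp [io, pr]
      · refine Ideal.mem_span_pair.2 ⟨C (D u w)⁻¹ * C (w 3), -C (D u w)⁻¹ * C (u 3), ?_⟩
        simp [io, pr, lin, Fin.sum_univ_four, div_eq_mul_inv]
        linear_combination (X 2) * e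
      · refine Ideal.mem_span_pair.2 ⟨-C (D u w)⁻¹ * C (w 2), C (D u w)⁻¹ * C (u 2), ?_⟩
        simp [io, pr, lin, Fin.sum_univ_four, div_eq_mul_inv]
        linear_combination (X 3) * e
    have e2 : p * X i - io (pr u w (p * X i)) =
        (p - io (pr u w p)) * X i + io (pr u w p) * (X i - io (pr u w (X i))) := by
      simp only [map_mul]; ring
    rw [e2]
    exact add_mem (Ideal.mul_mem_right _ _ hp) (Ideal.mul_mem_left _ _ this)

lemma memK {u w : V} (h : D u w ≠ 0) (f : R) : f ∈ K u w ↔ pr u w f = 0 := by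
  refine ⟨fun hf => ?_, fun e => by simpa [e] using redK h f⟩
  obtain ⟨a, b, rfl⟩ := Ideal.mem_span_pair.1 hf
  have e1 : pr u w (lin u) = 0 := by
    rw [pr_lin _ _ _ h, show u 0 * D u w + _ + _ = 0 by rw [D]; ring,
      show u 1 * D u w + _ + _ = 0 by rw [D]; ring]
    simp
  have e2 : pr u w (lin w) = 0 := by
    rw [pr_lin _ _ _ h, show w 0 * D u w + _ + _ = 0 by rw [D]; ring,
      show w 1 * D u w + _ + _ = 0 by rw [D]; ring]
    simp
  simp [e1, e2]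

lemma primeK {u w : V} (h : D u w ≠ 0) : (K u w).IsPrime := by
  rw [show K u w = RingHom.ker (pr u w) from Ideal.ext (memK h)]
  exact RingHom.ker_isPrime _

lemma lin_mem {u w : V} (h : D u w ≠ 0) (x : V) : lin x ∈ K u w ↔
    x 0 * D u w + x 2 * (w 0 * u 3 - u 0 * w 3) + x 3 * (u 0 * w 2 - w 0 * u 2) = 0 ∧
    x 1 * D u w + x 2 * (w 1 * u 3 - u 1 * w 3) + x 3 * (u 1 * w 2 - w 1 * u 2) = 0 := by
  rw [memK h, pr_lin _ _ _ h]
  refine ⟨fun e => ⟨?_, ?_⟩, fun e => by simp [e.1, e.2]⟩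
  · simpa [h] using congrArg (eval ![1, 0]) e
  · simpa [h] using congrArg (eval ![0, 1]) e

lemma K_rev {u w a b : V} (h : D u w ≠ 0) (h' : D a b ≠ 0) (e : K a b ≤ K u w) : K u w ≤ K a b := by
  intro f hf
  have := (memK h _).1 (sub_mem hf (e (redK h' f)))
  rw [sub_sub_cancel, pr_io] at this
  exact (memK h' f).2 this

/-- Regular sequences of the parameter ring stay regular modulo `I`. -/
def W (I : Ideal R) : Prop := ∀ f g : B, f ≠ 0 → (∀ x y, g * x = f * y → f ∣ x) →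
  (∀ x, io f * x ∈ I → x ∈ I) ∧ ∀ x y, io g * x - io f * y ∈ I → ∃ z, x - io f * z ∈ I

lemma W_top : W ⊤ := fun _ _ _ _ => ⟨fun _ _ => trivial, fun _ _ _ => ⟨0, trivial⟩⟩

lemma W_K {u w : V} (h : D u w ≠ 0) : W (K u w) := fun f g hf hg => by
  simp only [memK h, map_mul, map_sub, pr_io, sub_eq_zero]
  refine ⟨fun x e => (mul_eq_zero.1 e).resolve_left hf, fun x y e => ?_⟩
  obtain ⟨z, hz⟩ := hg _ _ e
  exact ⟨io z, by rw [pr_io, hz]⟩

lemma W_ext {I I' J : Ideal R} (u : R) (h1 : ∀ x, u * x ∈ I' ↔ x ∈ I)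
    (h2 : ∀ x, x ∈ J ↔ ∃ a, x - u * a ∈ I') (hI : W I) (hJ : W J) : W I' := fun f g hf hg => by
  obtain ⟨i1, i2⟩ := hI f g hf hg
  obtain ⟨j1, j2⟩ := hJ f g hf hg
  have le : ∀ x ∈ I', x ∈ J := fun x hx => (h2 x).2 ⟨0, by simpa using hx⟩
  refine ⟨fun x hx => ?_, fun x y hx => ?_⟩
  · obtain ⟨a, ha⟩ := (h2 x).1 (j1 x (le _ hx))
    have : a ∈ I := i1 a ((h1 _).1 (by
      convert sub_mem hx (I'.mul_mem_left (io f) ha) using 1; ring))
    simpa using add_mem ha ((h1 a).2 this)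
  · obtain ⟨z, hz⟩ := j2 x y (le _ hx)
    obtain ⟨a, ha⟩ := (h2 _).1 hz
    have e : u * (io g * a) - io f * (y - io g * z) ∈ I' := by
      convert sub_mem hx (I'.mul_mem_left (io g) ha) using 1; ring
    obtain ⟨b, hb⟩ := (h2 _).1 (j1 (y - io g * z) ((h2 _).2 ⟨io g * a, by
      convert neg_mem e using 1; ring⟩))
    obtain ⟨c, hc⟩ := i2 a b ((h1 _).1 (by
      convert add_mem e (I'.mul_mem_left (io f) hb) using 1; ring))
    exact ⟨z + u * c, by convert add_mem ha ((h1 _).2 hc) using 1; ring⟩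

lemma planar (h : V) (gs : List V) (h1 : ∀ g ∈ gs, D h g ≠ 0)
    (h2 : gs.Pairwise fun g g' => lin g ∉ K h g') :
    W (Ideal.span {lin h, (gs.map lin).prod}) ∧
      ∀ f, (∀ g ∈ gs, f ∈ K h g) ↔ f ∈ Ideal.span {lin h, (gs.map lin).prod} := by
  induction gs with
  | nil =>
    have : Ideal.span {lin h, (1 : R)} = ⊤ := (Ideal.eq_top_iff_one _).2 (Ideal.subset_span (by simp))
    simp [this, W_top]
  | cons g gs ih =>
    rw [List.pairwise_cons] at h2
    obtain ⟨i1, i2⟩ := ih (fun g hg => h1 g (by simp [hg])) h2.2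
    simp only [List.map_cons, List.prod_cons, List.forall_mem_cons] at h1 ⊢
    set G := (gs.map lin).prod
    have e0 : ∀ f ∈ Ideal.span {lin h, lin g * G}, ∀ g' ∈ gs, f ∈ K h g' := fun f hf => (i2 f).2 (by
      obtain ⟨a, b, rfl⟩ := Ideal.mem_span_pair.1 hf
      exact Ideal.mem_span_pair.2 ⟨a, b * lin g, by ring⟩)
    have e3 : ∀ x, (∀ g' ∈ gs, lin g * x ∈ K h g') → x ∈ Ideal.span {lin h, G} := fun x hx =>
      (i2 x).1 fun g' hg => ((primeK (h1.2 g' hg)).mem_or_mem (hx g' hg)).resolve_left (h2.1 g' hg)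
    have e1 : ∀ x, lin g * x ∈ Ideal.span {lin h, lin g * G} ↔ x ∈ Ideal.span {lin h, G} := fun x =>
      ⟨fun hx => e3 x (e0 _ hx), fun hx => by
        obtain ⟨a, b, rfl⟩ := Ideal.mem_span_pair.1 hx
        exact Ideal.mem_span_pair.2 ⟨a * lin g, b, by ring⟩⟩
    have e2 : ∀ x, x ∈ K h g ↔ ∃ a, x - lin g * a ∈ Ideal.span {lin h, lin g * G} := fun x =>
      ⟨fun hx => by
        obtain ⟨a, b, rfl⟩ := Ideal.mem_span_pair.1 hx
        exact ⟨b, Ideal.mem_span_pair.2 ⟨a, 0, by ring⟩⟩, fun ⟨c, hx⟩ => by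
        obtain ⟨a, b, e⟩ := Ideal.mem_span_pair.1 hx
        exact Ideal.mem_span_pair.2 ⟨a, b * G + c, by linear_combination e⟩⟩
    refine ⟨W_ext _ e1 e2 i1 (W_K h1.1), fun f => ⟨fun hf => ?_, fun hf => ⟨(e2 f).2 ⟨0, by simpa using hf⟩, e0 f hf⟩⟩⟩
    obtain ⟨a, b, rfl⟩ := Ideal.mem_span_pair.1 hf.1
    refine add_mem (Ideal.mul_mem_left _ _ (Ideal.subset_span (by simp))) ?_
    rw [mul_comm b, e1]
    refine e3 b fun g' hg => ?_
    have := sub_mem (hf.2 g' hg) (Ideal.mul_mem_left (K h g') a (Ideal.subset_span (by simp) : lin h ∈ _))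
    rwa [add_sub_cancel_left, mul_comm] at this

/-- The ideal of a set of lines. -/
noncomputable def IL (S : Set (V × V)) : Ideal R := ⨅ L ∈ S, K L.1 L.2

lemma memIL {S : Set (V × V)} {f : R} : f ∈ IL S ↔ ∀ L ∈ S, f ∈ K L.1 L.2 := by simp [IL]

/-- A section that is not a polynomial but is multiplied into the ring by every variable. -/
def N (S : Set (V × V)) : Prop := ∃ φ : V × V → R,
  (∀ i, ∃ f, ∀ L ∈ S, f - X i * φ L ∈ K L.1 L.2) ∧ ¬ ∃ f, ∀ L ∈ S, f - φ L ∈ K L.1 L.2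

lemma step {S S' : Set (V × V)} (hS : ∀ L ∈ S, D L.1 L.2 ≠ 0) (h : V) (gs : List V)
    (hS' : ∀ L, L ∈ S' ↔ L ∈ S ∧ lin h ∉ K L.1 L.2) (h1 : ∀ g ∈ gs, D h g ≠ 0)
    (h2 : gs.Pairwise fun g g' => lin g ∉ K h g') (m : R) (h3 : (gs.map lin).prod - m * lin h ∈ IL S)
    (h4 : ∀ g ∈ gs, ∃ L ∈ S, lin h ∈ K L.1 L.2 ∧ lin g ∈ K L.1 L.2) :
    (W (IL S') → W (IL S)) ∧ (N S' → N S) := by
  obtain ⟨p1, p2⟩ := planar h gs h1 h2
  have e2 : ∀ x ∈ Ideal.span {lin h, (gs.map lin).prod}, ∃ a, x - lin h * a ∈ IL S := fun x hx => by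
    obtain ⟨a, b, rfl⟩ := Ideal.mem_span_pair.1 hx
    exact ⟨a + b * m, by convert (IL S).mul_mem_left b h3 using 1; ring⟩
  have e3 : ∀ x, (∀ L ∈ S, lin h ∈ K L.1 L.2 → x ∈ K L.1 L.2) → x ∈ Ideal.span {lin h, (gs.map lin).prod} :=
    fun x hx => (p2 x).1 fun g hg => by
      obtain ⟨L, l1, l2, l3⟩ := h4 g hg
      exact K_rev (hS L l1) (h1 g hg) (Ideal.span_le.2 (by rintro _ (rfl | rfl) <;> assumption)) (hx L l1 l2)
  refine ⟨fun w => W_ext (lin h) (fun x => ?_) (fun x => ⟨e2 x, fun ⟨a, ha⟩ => e3 x fun L l1 l2 => ?_⟩) w p1,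
    fun ⟨φ, n1, n2⟩ => ⟨fun L => lin h * φ L, fun i => ?_, fun ⟨f, hf⟩ => n2 ?_⟩⟩
  · simp only [memIL, hS']
    refine ⟨fun e L l => ((primeK (hS L l.1)).mem_or_mem (e L l.1)).resolve_left l.2, fun e L l => ?_⟩
    by_cases c : lin h ∈ K L.1 L.2
    · exact Ideal.mul_mem_right _ _ c
    · exact Ideal.mul_mem_left _ _ (e L ⟨l, c⟩)
  · simpa using add_mem (memIL.1 ha L l1) (Ideal.mul_mem_right a _ l2)
  · obtain ⟨f, hf⟩ := n1 i
    refine ⟨lin h * f, fun L l => ?_⟩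
    rw [show lin h * f - X i * (lin h * φ L) = lin h * (f - X i * φ L) by ring]
    by_cases c : lin h ∈ K L.1 L.2
    · exact Ideal.mul_mem_right _ _ c
    · exact Ideal.mul_mem_left _ _ (hf L ((hS' L).2 ⟨l, c⟩))
  · obtain ⟨a, ha⟩ := e2 f (e3 f fun L l1 l2 => by
      simpa using add_mem (hf L l1) (Ideal.mul_mem_right (φ L) _ l2))
    refine ⟨a, fun L l => ?_⟩
    rw [hS'] at l
    refine ((primeK (hS L l.1)).mem_or_mem ?_).resolve_left l.2
    convert sub_mem (hf L l.1) (memIL.1 ha L l.1) using 1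
    simp only
    ring

end Pool.Agent.H.MP_7f7c16_ag
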