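import Pool.Agent.H.MP_7f7c16_ag.A

set_option autoImplicit false

namespace Pool.Agent.H.MP_7f7c16_ag

open MvPolynomial RingTheory.Sequence

/-- Every localization at a prime has a regular sequence of full length. -/
def CM (A : Type) [CommRing A] : Prop := ∀ (p : Ideal A) [p.IsPrime],
  ∃ rs : List (Localization.AtPrime p), (∀ r ∈ rs, r ∈ IsLocalRing.maximalIdeal (Localization.AtPrime p)) ∧
    IsRegular (Localization.AtPrime p) rs ∧ (rs.length : WithBot ℕ∞) = ringKrullDim (Localization.AtPrime p)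

lemma reg2 {A : Type} [CommRing A] (a b : A) : IsWeaklyRegular A [a, b] ↔
    (∀ x, a * x = 0 → x = 0) ∧ ∀ x y, b * x = a * y → ∃ z, x = a * z := by
  rw [isWeaklyRegular_cons_iff, isWeaklyRegular_singleton_iff, isSMulRegular_iff_right_eq_zero_of_smul,
    isSMulRegular_quotient_iff_mem_of_smul_mem]
  simp only [Submodule.mem_smul_pointwise_iff_exists, Submodule.mem_top, true_and, smul_eq_mul]
  exact and_congr_right' ⟨fun h x y e => (h x ⟨y, e.symm⟩).imp fun _ => Eq.symm,
    fun h x ⟨y, e⟩ => (h x y e.symm).imp fun _ => Eq.symm⟩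

variable {A : Type} [CommRing A] (q : R →+* A) (hq : Function.Surjective q)
include hq

lemma cm (hW : W (RingHom.ker q))
    (hP : ∀ P : Ideal R, P.IsPrime → RingHom.ker q ≤ P → ∃ u w, D u w ≠ 0 ∧ K u w ≤ P) : CM A := by
  intro p hp
  let j : B →+* A := q.comp io.toRingHom
  have mono : StrictMono (PrimeSpectrum.comap j) := fun p1 p2 h => by
    refine lt_of_le_of_ne (Ideal.comap_mono h.le) fun e => h.not_ge fun x hx => ?_
    obtain ⟨x, rfl⟩ := hq x
    obtain ⟨u, w, d, k⟩ := hP (p1.asIdeal.comap q) inferInstance fun y hy => by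
      simp [Ideal.mem_comap, RingHom.mem_ker.1 hy]
    have e1 : q x - j (pr u w x) ∈ p1.asIdeal := by simpa [j] using k (redK d x)
    have e2 : pr u w x ∈ (PrimeSpectrum.comap j p2).asIdeal := by
      simpa using sub_mem hx (h.le e1)
    rw [← e] at e2
    simpa using add_mem e1 e2
  have h1 : p.height ≤ (p.comap j).height := by
    have := Order.height_le_height_apply_of_strictMono _ mono ⟨p, hp⟩
    rwa [← PrimeSpectrum.height_eq_orderHeight, ← PrimeSpectrum.height_eq_orderHeight] at this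
  have h2 : (p.comap j).height ≤ 2 := by
    have := Ideal.height_le_ringKrullDim_of_isPrime (I := p.comap j)
    rw [MvPolynomial.ringKrullDim_of_isNoetherianRing, ringKrullDim_eq_zero_of_field] at this
    exact WithBot.coe_le_coe.1 (by simpa using this)
  have hr : ∀ f g : B, f ≠ 0 → (∀ x y, g * x = f * y → f ∣ x) → IsWeaklyRegular A [j f, j g] :=
    fun f g hf hg => by
      obtain ⟨w1, w2⟩ := hW f g hf hg
      simp only [RingHom.mem_ker, map_sub, map_mul, sub_eq_zero] at w1 w2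
      rw [reg2, hq.forall, hq.forall]
      refine ⟨w1, fun x => hq.forall.2 fun y e => ?_⟩
      obtain ⟨z, hz⟩ := w2 x y e
      exact ⟨_, hz⟩
  have fin : ∀ rs : List A, IsWeaklyRegular A rs → (∀ r ∈ rs, r ∈ p) → p.height = rs.length →
      ∃ rs : List (Localization.AtPrime p), (∀ r ∈ rs, r ∈ IsLocalRing.maximalIdeal (Localization.AtPrime p)) ∧
        IsRegular (Localization.AtPrime p) rs ∧
          (rs.length : WithBot ℕ∞) = ringKrullDim (Localization.AtPrime p) := fun rs r1 r2 r3 =>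
    ⟨_, fun r hr => by
      obtain ⟨r, h, rfl⟩ := List.mem_map.1 hr
      exact (IsLocalization.AtPrime.to_map_mem_maximal_iff _ p r).2 (r2 r h),
    r1.isRegular_of_isLocalization_of_mem _ p r2, by
      rw [IsLocalization.AtPrime.ringKrullDim_eq_height p, r3, List.length_map]; rfl⟩
  by_cases c0 : p.height = 0
  · exact fin [] (.nil _ _) (by simp) (by simpa using c0)
  obtain ⟨f, hf, pf⟩ := Ideal.IsPrime.exists_mem_prime_of_ne_bot (I := p.comap j) inferInstance fun e => by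
    rw [e, Ideal.height_bot] at h1
    exact c0 (by simpa using h1)
  by_cases c1 : p.height ≤ 1
  · refine fin [j f] ((isWeaklyRegular_singleton_iff _ _).2 ((isWeaklyRegular_cons_iff _ _ _).1
      (hr f 1 pf.ne_zero fun x y e => ⟨y, by simpa using e⟩)).1) (by simpa using hf) ?_
    simpa using le_antisymm c1 (Order.one_le_iff_ne_zero.2 c0)
  obtain ⟨g, hg, hg'⟩ : ∃ g ∈ p.comap j, g ∉ Ideal.span {f} := by
    by_contra! e
    exact c1 (h1.trans ((Ideal.height_mono e).trans (Ideal.height_span_singleton_le_one pf.not_isUnit)))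
  refine fin [j f, j g] (hr f g pf.ne_zero fun x y e => (pf.dvd_or_dvd ⟨y, e⟩).resolve_left
    (by rwa [← Ideal.mem_span_singleton])) (by simpa using ⟨hf, hg⟩) ?_
  exact le_antisymm (h1.trans h2) (Order.add_one_le_of_lt (not_le.1 c1))

lemma not_cm {S : Set (V × V)} (hS : ∀ L ∈ S, D L.1 L.2 ≠ 0) (hf : S.Finite) (hk : RingHom.ker q = IL S)
    (hN : N S) : ¬ CM A := by
  classical
  intro h
  obtain ⟨φ, n1, n2⟩ := hN
  have k0 : ∀ x, q x = 0 ↔ ∀ L ∈ S, x ∈ K L.1 L.2 := fun x => by rw [← memIL, ← hk]; rfl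
  let m : Ideal R := RingHom.ker constantCoeff
  have km : ∀ u w, K u w ≤ m := fun u w => Ideal.span_le.2 (by
    rintro _ (rfl | rfl) <;> simp [m, lin])
  obtain ⟨L0, l0⟩ : S.Nonempty := by
    by_contra e
    exact n2 ⟨0, fun L l => absurd ⟨L, l⟩ e⟩
  have hm : ∀ (P : Ideal R), K L0.1 L0.2 ≤ P → ∀ x, q x ∈ P.map q ↔ x ∈ P := fun P hP x => by
    rw [← Ideal.mem_comap, Ideal.comap_map_of_surjective _ hq, sup_eq_left.2]
    exact fun y hy => hP ((k0 y).1 hy L0 l0)
  have pm : ∀ (P : Ideal R) [P.IsPrime], K L0.1 L0.2 ≤ P → (P.map q).IsPrime := fun P _ hP =>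
    Ideal.map_isPrime_of_surjective hq fun y hy => hP ((k0 y).1 hy L0 l0)
  have mp : m.IsPrime := RingHom.ker_isPrime _
  have := pm m (km _ _)
  have n3 : ∀ a ∈ m, ∃ f, ∀ L ∈ S, f - a * φ L ∈ K L.1 L.2 := fun a ha => by
    have : a ∈ Ideal.span (Set.range (X : Fin 4 → R)) := by
      rw [← Set.image_univ, mem_ideal_span_X_image]
      intro d hd
      by_contra! e
      rw [show d = 0 from Finsupp.ext fun i => e i trivial] at hd
      exact mem_support_iff.1 hd ha
    clear ha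
    induction this using Submodule.span_induction with
    | mem _ h => obtain ⟨i, rfl⟩ := h; exact n1 i
    | zero => exact ⟨0, by simp⟩
    | add a b _ _ h1 h2 =>
      obtain ⟨f, h1⟩ := h1
      obtain ⟨g, h2⟩ := h2
      exact ⟨f + g, fun L l => by convert add_mem (h1 L l) (h2 L l) using 1; ring⟩
    | smul a b _ h1 =>
      obtain ⟨f, h1⟩ := h1
      exact ⟨a * f, fun L l => by convert Ideal.mul_mem_left _ a (h1 L l) using 1; rw [smul_eq_mul]; ring⟩
  obtain ⟨rs, r1, r2, r3⟩ := h (m.map q)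
  have d0 := hS L0 l0
  have d2 : 2 ≤ (m.map q).height := by
    have := primeK d0
    have : (Ideal.span {(X 0 : B)}).IsPrime := (Ideal.span_singleton_prime (X_ne_zero _)).2 X_prime
    let P := (Ideal.span {(X 0 : B)}).comap (pr L0.1 L0.2)
    have kP : K L0.1 L0.2 ≤ P := fun x hx => by simp [P, (memK d0 x).1 hx]
    have := pm _ (le_refl (K L0.1 L0.2))
    have := pm P kP
    have a1 : (K L0.1 L0.2).map q < P.map q := lt_of_le_of_ne (Ideal.map_mono kP) fun e => by
      have : q (X 0) ∈ P.map q := (hm P kP _).2 (by simp [P, pr])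
      rw [← e, hm _ le_rfl, memK d0] at this
      simp [pr] at this
    have a2 : P.map q < m.map q := lt_of_le_of_ne (Ideal.map_mono fun x hx => by
        obtain ⟨z, hz⟩ := Ideal.mem_span_singleton.1 hx
        simpa [hz, m, io] using km _ _ (redK d0 x)) fun e => by
      have : q (X 1) ∈ m.map q := (hm m (km _ _) _).2 (by simp [m])
      rw [← e, hm P kP] at this
      simp [P, pr, Ideal.mem_span_singleton] at this
    exact le_trans (add_le_add_left (le_add_self.trans (Ideal.height_add_one_le_of_lt_of_isPrime a1)) 1)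
      (Ideal.height_add_one_le_of_lt_of_isPrime a2)
  rw [IsLocalization.AtPrime.ringKrullDim_eq_height (m.map q)] at r3
  have r4 : 2 ≤ rs.length := by
    have : ((2 : ℕ∞) : WithBot ℕ∞) ≤ rs.length := r3 ▸ WithBot.coe_le_coe.2 d2
    exact_mod_cast this
  obtain _ | ⟨a, _ | ⟨b, rs⟩⟩ := rs
  · simp at r4
  · simp at r4
  obtain ⟨w1, w2⟩ := (reg2 a b).1 ((isWeaklyRegular_append_iff _ [a, b] rs).1 r2.1).1
  let ψ : R →+* Localization.AtPrime (m.map q) := (algebraMap A _).comp q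
  have sj : ∀ z, ∃ x u, u ∉ m ∧ z * ψ u = ψ x := fun z => by
    obtain ⟨⟨x, u, hu⟩, e⟩ := IsLocalization.surj (m.map q).primeCompl z
    obtain ⟨x, rfl⟩ := hq x
    obtain ⟨u, rfl⟩ := hq u
    exact ⟨x, u, fun c => hu ((hm m (km _ _) _).2 c), e⟩
  have z0 : ∀ x, ψ x = 0 → ∃ t, t ∉ m ∧ ∀ L ∈ S, t * x ∈ K L.1 L.2 := fun x e => by
    obtain ⟨⟨t, ht⟩, e⟩ := (IsLocalization.map_eq_zero_iff (m.map q).primeCompl _ _).1 e
    obtain ⟨t, rfl⟩ := hq t
    exact ⟨t, fun c => ht ((hm m (km _ _) _).2 c), (k0 _).1 (by simpa using e)⟩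
  have z1 : ∀ x, (∀ L ∈ S, x ∈ K L.1 L.2) → ψ x = 0 := fun x e => by simp [ψ, (k0 x).2 e]
  have mm : ∀ r ∈ a :: b :: rs, ∀ x u, r * ψ u = ψ x → x ∈ m := fun r hr x u e => (hm m (km _ _) _).1
    ((IsLocalization.AtPrime.to_map_mem_maximal_iff (Localization.AtPrime (m.map q)) (m.map q) _).1
      (show ψ x ∈ _ from e ▸ Ideal.mul_mem_right _ _ (r1 r hr)))
  obtain ⟨a0, u, hu, ea⟩ := sj a
  obtain ⟨b0, v, hv, eb⟩ := sj b
  obtain ⟨fa, ha⟩ := n3 a0 (mm a (by simp) _ _ ea)
  obtain ⟨fb, hb⟩ := n3 b0 (mm b (by simp) _ _ eb)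
  have e1 := z1 (b0 * fa - a0 * fb) fun L l => by
    convert sub_mem (Ideal.mul_mem_left _ b0 (ha L l)) (Ideal.mul_mem_left _ a0 (hb L l)) using 1; ring
  rw [map_sub, map_mul, map_mul, ← ea, ← eb] at e1
  obtain ⟨z, hz⟩ := w2 (ψ v * ψ fa) (ψ u * ψ fb) (by linear_combination e1)
  obtain ⟨c, s, hs, ec⟩ := sj z
  obtain ⟨t, ht, e2⟩ := z0 (v * u * s * fa - a0 * c) (by
    simp only [map_sub, map_mul, ← ea, ← ec]; linear_combination ψ u * ψ s * hz)
  have na : ∀ L ∈ S, a0 ∉ K L.1 L.2 := fun L l c => by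
    have pL := primeK (hS L l)
    obtain ⟨y, y1, y2⟩ := SetLike.not_le_iff_exists.1 (mt (pL.inf_le' (f := fun M : V × V => K M.1 M.2)
      (s := hf.toFinset.filter fun M => ¬ K M.1 M.2 ≤ K L.1 L.2)).1 (by simp))
    have e3 := z1 (a0 * y) fun M l' => by
      by_cases e : K M.1 M.2 ≤ K L.1 L.2
      · exact Ideal.mul_mem_right _ _ (K_rev (hS L l) (hS M l') e c)
      · exact Ideal.mul_mem_left _ _ (Finset.inf_le (f := fun M : V × V => K M.1 M.2) (by simp [l', e]) y1)
    rw [map_mul, ← ea, mul_assoc] at e3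
    obtain ⟨t, ht, e4⟩ := z0 (u * y) (by rw [map_mul]; exact w1 _ e3)
    rcases pL.mem_or_mem (e4 L l) with e | e
    · exact ht (km _ _ e)
    · exact (pL.mem_or_mem e).elim (fun e => hu (km _ _ e)) y2
  have hw : constantCoeff (t * (v * u * s)) ≠ 0 := fun e => (mp.mem_or_mem e).elim ht fun e =>
    (mp.mem_or_mem e).elim (fun e => (mp.mem_or_mem e).elim hv hu) hs
  set w := t * (v * u * s) with ew
  obtain ⟨f1, h1⟩ := n3 (w - C (constantCoeff w)) (by simp [m])
  refine n2 ⟨C (constantCoeff w)⁻¹ * (t * c - f1), fun L l => ?_⟩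
  have e5 : w * φ L - t * c ∈ K L.1 L.2 := ((primeK (hS L l)).mem_or_mem (by
    convert sub_mem (e2 L l) (Ideal.mul_mem_left _ w (ha L l)) using 1; rw [ew]; ring)).resolve_left (na L l)
  have e6 : (C (constantCoeff w)⁻¹ : R) * C (constantCoeff w) = 1 := by
    rw [← C_mul, inv_mul_cancel₀ hw, C_1]
  convert Ideal.mul_mem_left _ (-C (constantCoeff w)⁻¹) (add_mem e5 (h1 L l)) using 1
  linear_combination φ L * e6

omit hq in
lemma rad {n : ℕ} (l : Fin (n + 1) → V) (hl : ∀ a b, a ≠ b → D (l a) (l b) ≠ 0) (h0 : ∀ a, l a ≠ 0) :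
    (∀ P : Ideal R, P.IsPrime → IL {L | ∃ a b, a ≠ b ∧ L = (l a, l b)} ≤ P → ∃ u w, D u w ≠ 0 ∧ K u w ≤ P) ∧
    (Ideal.span (Set.range fun i => pderiv i (∏ a, lin (l a)))).radical =
      IL {L | ∃ a b, a ≠ b ∧ L = (l a, l b)} := by
  classical
  have sp : ∀ a, ∏ c, lin (l c) = lin (l a) * ∏ c ∈ Finset.univ.erase a, lin (l c) := fun a =>
    (Finset.mul_prod_erase _ _ (Finset.mem_univ a)).symm
  have h1 : ∀ a b, a ≠ b → Ideal.span (Set.range fun i => pderiv i (∏ a, lin (l a))) ≤ K (l a) (l b) :=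
    fun a b h => Ideal.span_le.2 (by
      rintro _ ⟨i, rfl⟩
      simp only [sp a, Derivation.leibniz, smul_eq_mul, SetLike.mem_coe]
      exact add_mem (Ideal.mul_mem_right _ _ (Ideal.subset_span (by simp))) (Ideal.mul_mem_right _ _
        (Ideal.prod_mem _ (i := b) (by simp [h.symm]) (Ideal.subset_span (by simp)))))
  have h2 : ∀ P : Ideal R, P.IsPrime → Ideal.span (Set.range fun i => pderiv i (∏ a, lin (l a))) ≤ P →
      ∃ a b, a ≠ b ∧ K (l a) (l b) ≤ P := fun P hP h => by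
    have hC : ∀ (c : ℚ) x, c ≠ 0 → C c * x ∈ P → x ∈ P := fun c x hc e =>
      (P.unit_mul_mem_iff_mem ((IsUnit.mk0 c hc).map C)).1 e
    have hd : ∀ i, pderiv i (∏ a, lin (l a)) ∈ P := fun i => h (Ideal.subset_span ⟨i, rfl⟩)
    have hom : (∏ a, lin (l a)).IsHomogeneous (∑ _a : Fin (n + 1), 1) := IsHomogeneous.prod _ _ _ fun a _ =>
      IsHomogeneous.sum _ _ _ fun j _ => isHomogeneous_C_mul_X _ _
    obtain ⟨a, -, ha⟩ := (Ideal.IsPrime.prod_mem_iff (s := Finset.univ) (x := fun a => lin (l a))).1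
      (hC (n + 1) _ (by positivity) (by
        have := sum_mem (t := Finset.univ) fun i _ => P.mul_mem_left (X i) (hd i)
        rw [hom.sum_X_mul_pderiv] at this
        simpa using this))
    obtain ⟨i, hi⟩ := Function.ne_iff.1 (h0 a)
    obtain ⟨b, hb, hb'⟩ := (Ideal.IsPrime.prod_mem_iff (s := Finset.univ.erase a) (x := fun a => lin (l a))).1
      (hC _ _ hi (by
        have := hd i
        rw [sp a, Derivation.leibniz, smul_eq_mul, smul_eq_mul, Ideal.add_mem_iff_right _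
          (Ideal.mul_mem_right _ _ ha), mul_comm] at this
        simpa [lin, pderiv_X, Pi.single_apply] using this))
    exact ⟨a, b, (Finset.ne_of_mem_erase hb).symm, Ideal.span_le.2 (by rintro _ (rfl | rfl) <;> assumption)⟩
  have h3 : (Ideal.span (Set.range fun i => pderiv i (∏ a, lin (l a)))).radical =
      IL {L | ∃ a b, a ≠ b ∧ L = (l a, l b)} := by
    refine le_antisymm (fun f hf => memIL.2 ?_) fun f hf => ?_
    · rintro _ ⟨a, b, h, rfl⟩
      exact (primeK (hl a b h)).radical_le_iff.2 (h1 a b h) hf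
    · rw [Ideal.radical_eq_sInf, Ideal.mem_sInf]
      intro P hP
      obtain ⟨a, b, h, e⟩ := h2 P hP.2 hP.1
      exact e (memIL.1 hf (l a, l b) ⟨a, b, h, rfl⟩)
  refine ⟨fun P hP e => ?_, h3⟩
  obtain ⟨a, b, h, e⟩ := h2 P hP (Ideal.le_radical.trans (h3.le.trans e))
  exact ⟨_, _, hl a b h, e⟩

end Pool.Agent.H.MP_7f7c16_ag
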