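import Pool.Agent.H.MP_7f7c16_ag.B

set_option autoImplicit false

namespace Pool.Agent.H.MP_7f7c16_ag

open MvPolynomial Submodule

lemma range_iso {ι α β : Type} [PartialOrder α] [PartialOrder β] (f : ι → α) (g : ι → β)
    (h : ∀ s t, f s ≤ f t ↔ g s ≤ g t) : Nonempty ({y | ∃ s, y = f s} ≃o {y | ∃ s, y = g s}) := by
  let φ : {y | ∃ s, y = f s} → {y | ∃ s, y = g s} := fun y => ⟨g y.2.choose, ⟨_, rfl⟩⟩
  have hφ : ∀ a b, φ a ≤ φ b ↔ a ≤ b := fun a b => by
    change g a.2.choose ≤ g b.2.choose ↔ a.1 ≤ b.1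
    rw [← h, ← a.2.choose_spec, ← b.2.choose_spec]
  refine ⟨OrderIso.ofSurjective (OrderEmbedding.ofMapLEIff φ hφ) ?_⟩
  rintro ⟨_, s, rfl⟩
  have hs := Exists.choose_spec (⟨s, rfl⟩ : ∃ t, f s = f t)
  exact ⟨⟨f s, s, rfl⟩, Subtype.ext (le_antisymm ((h _ _).1 hs.ge) ((h _ _).1 hs.le))⟩

variable {n : ℕ}

lemma indep (u w : Fin n → V) (hs : ∀ x, x ∈ span ℚ (Set.range u))
    (H : ∀ e : Fin 4 → Fin n, StrictMono e → (Matrix.of fun i => u (e i)).det ≠ 0 →
      (Matrix.of fun i => w (e i)).det ≠ 0) (T : Set (Fin n)) (h : LinearIndepOn ℚ u T) :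
    LinearIndepOn ℚ w T := by
  classical
  obtain ⟨b, -, h1, h2, h3⟩ := exists_linearIndepOn_extension h (Set.subset_univ T)
  have h4 : b.toFinset.card = 4 := by
    have := linearIndependent_iff_card_eq_finrank_span.1 h3
    rw [Set.finrank, ← Set.image_eq_range u, show span ℚ (u '' b) = ⊤ from eq_top_iff.2 fun x _ =>
      span_le.2 (Set.image_univ ▸ h2) (hs x)] at this
    simpa using this
  let e := b.toFinset.orderEmbOfFin h4
  have he : Set.range e = b := by simp [e]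
  have k : ∀ v : Fin n → V, LinearIndepOn ℚ v b ↔ (Matrix.of fun i => v (e i)).det ≠ 0 := fun v => by
    rw [← he, linearIndepOn_range_iff e.injective, ← isUnit_iff_ne_zero, ← Matrix.isUnit_iff_isUnit_det,
      ← Matrix.linearIndependent_rows_iff_isUnit]
    rfl
  exact ((k w).2 (H e e.strictMono ((k u).1 h3))).mono h1

lemma span_tr (u w : Fin n → V) (H : ∀ T, LinearIndepOn ℚ u T ↔ LinearIndepOn ℚ w T) (S : Set (Fin n))
    (t : Fin n) (h : w t ∈ span ℚ (w '' S)) : u t ∈ span ℚ (u '' S) := by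
  obtain ⟨b, h0, -, h2, h3⟩ := exists_linearIndepOn_extension (linearIndepOn_empty ℚ w) (Set.empty_subset S)
  refine span_mono (Set.image_mono h0) ?_
  by_contra e
  rw [((H b).2 h3).notMem_span_iff, H, ← h3.notMem_span_iff] at e
  exact e (span_le.2 h2 h)

lemma sub_iff (u : Fin n → V) (S : Finset (Fin n)) (t : Fin n) :
    (∀ x : V, (∀ i ∈ S, ∑ j, u i j * x j = 0) → ∑ j, u t j * x j = 0) ↔ u t ∈ span ℚ (u '' S) := by
  constructor
  · intro h
    let e := dotProductEquiv ℚ (Fin 4)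
    have := mem_span_of_iInf_ker_le_ker (L := fun i : S => e (u i)) (K := e (u t)) fun x hx => by
      simp only [mem_iInf, LinearMap.mem_ker, Subtype.forall] at hx
      exact h x hx
    rw [Set.range_comp' e] at this
    rw [Set.image_eq_range]
    exact (apply_mem_span_image_iff_mem_span (f := e.toLinearMap) e.injective).1 this
  · intro h x hx
    generalize u t = y at h
    induction h using span_induction with
    | mem _ h => obtain ⟨i, hi, rfl⟩ := h; exact hx i hi
    | zero => simp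
    | add a b _ _ h1 h2 => simp [add_mul, Finset.sum_add_distrib, h1, h2]
    | smul a b _ h1 => simp [mul_assoc, ← Finset.mul_sum, h1]

lemma lat (u w : Fin n → V) (H : ∀ T, LinearIndepOn ℚ u T ↔ LinearIndepOn ℚ w T) :
    Nonempty ({W : Set V | ∃ S : Finset (Fin n), W = {x | ∀ i ∈ S, ∑ j, u i j * x j = 0}} ≃o
      {W : Set V | ∃ S : Finset (Fin n), W = {x | ∀ i ∈ S, ∑ j, w i j * x j = 0}}) := by
  refine range_iso _ _ fun S T => ?_
  have : ∀ v : Fin n → V, {x : V | ∀ i ∈ S, ∑ j, v i j * x j = 0} ≤ {x | ∀ i ∈ T, ∑ j, v i j * x j = 0} ↔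
      ∀ t ∈ T, v t ∈ span ℚ (v '' S) := fun v => by
    simp only [← sub_iff]
    exact ⟨fun h t ht x hx => h hx t ht, fun h x hx t ht => h t ht x hx⟩
  rw [this, this]
  exact forall₂_congr fun t _ => ⟨span_tr w u (fun T => (H T).symm) S t, span_tr u w H S t⟩

/-- Lines all of whose planes have index below `j`. -/
def St (l : Fin n → V) (j : ℕ) : Set (V × V) :=
  {L | ∃ a b, a ≠ b ∧ (∀ c : Fin n, j ≤ c → lin (l c) ∉ K (l a) (l b)) ∧ L = (l a, l b)}

lemma m1 (u w : V) : lin u ∈ K u w := Ideal.subset_span (by simp)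
lemma m2 (u w : V) : lin w ∈ K u w := Ideal.subset_span (by simp)

lemma chain (l : Fin n → V) (hD : ∀ a b, a ≠ b → D (l a) (l b) ≠ 0) (r o : Fin n → Fin n) (k : ℕ)
    (hT : ∀ j : Fin n, k ≤ j → r j < j ∧ o j < j ∧ o j ≠ r j ∧ lin (l (o j)) ∈ K (l j) (l (r j)))
    (hG : ∀ j c d : Fin n, k ≤ j → c < j → c ≠ r j → d ≠ j → d ≠ c → d ≠ r j → lin (l d) ∉ K (l j) (l c))
    (i : ℕ) (hi : k ≤ i) (hn : i ≤ n) :
    (W (IL (St l k)) → W (IL (St l i))) ∧ (N (St l k) → N (St l i)) := by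
  induction i, hi using Nat.le_induction with
  | base => exact ⟨id, id⟩
  | succ i hi ih =>
    let j : Fin n := ⟨i, hn⟩
    obtain ⟨t1, t2, t3, t4⟩ := hT j hi
    have mem : ∀ g, g ∈ ((List.finRange n).filter fun c => c < j ∧ c ≠ r j).map l ↔
        ∃ c, (c < j ∧ c ≠ r j) ∧ l c = g := by simp
    have := step (S := St l (i + 1)) (S' := St l i) (by rintro _ ⟨a, b, h, -, rfl⟩; exact hD a b h) (l j)
      (((List.finRange n).filter fun c => c < j ∧ c ≠ r j).map l) (fun L => ?_) (fun g hg => ?_) ?_ 0 ?_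
      (fun g hg => ?_)
    · exact ⟨fun h => this.1 ((ih (by omega)).1 h), fun h => this.2 ((ih (by omega)).2 h)⟩
    · constructor
      · rintro ⟨a, b, h1, h2, rfl⟩
        exact ⟨⟨a, b, h1, fun c hc => h2 c (by omega), rfl⟩, h2 j le_rfl⟩
      · rintro ⟨⟨a, b, h1, h2, rfl⟩, h3⟩
        refine ⟨a, b, h1, fun c hc => ?_, rfl⟩
        rcases hc.eq_or_lt with e | e
        · rwa [show c = j from Fin.ext e.symm]
        · exact h2 c e
    · obtain ⟨c, h, rfl⟩ := (mem g).1 hg
      exact hD _ _ h.1.ne'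
    · rw [List.pairwise_map]
      refine ((List.nodup_finRange n).filter _).pairwise_of_forall_ne fun c hc d hd e => ?_
      simp only [List.mem_filter, decide_eq_true_eq] at hc hd
      exact hG j d c hi hd.2.1 hd.2.2 hc.2.1.ne e hc.2.2
    · rw [zero_mul, sub_zero, memIL]
      rintro _ ⟨a, b, h1, h2, rfl⟩
      have key : ∀ c, c ≠ j → c ≠ r j → lin (l c) ∈ K (l a) (l b) → (List.map lin (((List.finRange n).filter
          fun c => c < j ∧ c ≠ r j).map l)).prod ∈ K (l a) (l b) := fun c c1 c2 c3 =>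
        Ideal.mem_of_dvd _ (List.dvd_prod (List.mem_map_of_mem ((mem _).2 ⟨c, ⟨lt_of_le_of_ne
          (Nat.le_of_lt_succ (not_le.1 fun e => h2 c e c3)) c1, c2⟩, rfl⟩))) c3
      by_cases a1 : a = j ∨ a = r j
      · by_cases b1 : b = j ∨ b = r j
        · refine key _ t2.ne t3 (Ideal.span_le.2 ?_ t4)
          rintro _ (rfl | rfl) <;> rcases a1 with rfl | rfl <;> rcases b1 with e | e <;>
            first | exact m1 _ _ | exact absurd e.symm h1 | exact e ▸ m2 _ _
        · exact key b (by tauto) (by tauto) (m2 _ _)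
      · exact key a (by tauto) (by tauto) (m1 _ _)
    · obtain ⟨c, h, rfl⟩ := (mem g).1 hg
      have : ∀ d : Fin n, i + 1 ≤ d → j < d := fun d hd => hd
      exact ⟨_, ⟨j, c, h.1.ne', fun d hd => hG j c d hi h.1 h.2 (this d hd).ne' (h.1.trans (this d hd)).ne'
        (t1.trans (this d hd)).ne', rfl⟩, m1 _ _, m2 _ _⟩

/-- Restriction to the line through the origin in direction `v`. -/
noncomputable def ray (v : V) : R →ₐ[ℚ] Polynomial ℚ := aeval fun i => Polynomial.C (v i) * Polynomial.X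

lemma ray_lin (v u : V) : ray v (lin u) = Polynomial.C (∑ i, u i * v i) * Polynomial.X := by
  simp [ray, lin, Finset.sum_mul, mul_assoc]

lemma ray_K {v u w : V} (h1 : ∑ i, u i * v i = 0) (h2 : ∑ i, w i * v i = 0) {f : R} (h : f ∈ K u w) :
    ray v f = 0 := by
  obtain ⟨a, b, rfl⟩ := Ideal.mem_span_pair.1 h
  simp only [map_add, map_mul, ray_lin, h1, h2, map_zero, zero_mul, mul_zero, add_zero]

lemma quad (f : R) : ∃ (c : ℚ) (a : V) (b : Fin 4 → V), ∀ v, (ray v f).coeff 0 = c ∧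
    (ray v f).coeff 1 = ∑ i, a i * v i ∧ (ray v f).coeff 2 = ∑ i, ∑ j, b i j * v i * v j := by
  induction f using MvPolynomial.induction_on with
  | C c => exact ⟨c, 0, 0, fun v => by simp [ray, Polynomial.coeff_C]⟩
  | add p q hp hq =>
    obtain ⟨c, a, b, h⟩ := hp
    obtain ⟨c', a', b', h'⟩ := hq
    exact ⟨c + c', a + a', b + b', fun v => by simp [h v, h' v, add_mul, Finset.sum_add_distrib]⟩
  | mul_X p i hp =>
    obtain ⟨c, a, b, h⟩ := hp
    refine ⟨0, Pi.single i c, Pi.single i a, fun v => ?_⟩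
    have : ray v (p * X i) = Polynomial.C (v i) * ray v p * Polynomial.X := by simp [ray]; ring
    rw [this, Polynomial.coeff_mul_X, Polynomial.coeff_mul_X, Polynomial.coeff_C_mul, Polynomial.coeff_C_mul,
      (h v).1, (h v).2.1]
    fin_cases i <;> simp [Fin.sum_univ_four] <;> constructor <;> ring

end Pool.Agent.H.MP_7f7c16_ag
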