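import Pool.Agent.H.MP_7f7c16_ag.C

set_option autoImplicit false

namespace Pool.Agent.H.MP_7f7c16_ag

open MvPolynomial Submodule

abbrev Z4 := ℤ × ℤ × ℤ × ℤ

/-- Six planes through a point whose two triangles lie on a conic, a seventh plane, 14 more planes. -/
def dA : List Z4 := [(1, 0, 3, -4), (0, 1, 3, 2), (0, 0, 1, 0), (1, -2, -5, -8), (-2, 1, -5, 10), (-2, -2, -11, 4), (0, 0, 0,
  1), (-3, 8, 23, 28), (6, -1, 17, -26), (3, 2, 14, -8), (-3, 10, 27, 32), (6, 1, 27, -22), (4, 5, 25, -6),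
  (-1, 2, 7, 8), (6, -3, 17, -30), (-6, -6, -29, 12), (0, 1, 3, 5), (0, 0, 4, 3), (1, -2, -5, -5), (-4, 2,
  -10, 19), (-6, -6, -33, 11), (0, 1, 2, 2)]

/-- The same with the sixth plane moved. -/
def dB : List Z4 := [(1, 0, 3, -4), (0, 1, 3, 2), (0, 0, 1, 0), (1, -2, -5, -8), (-2, 1, -5, 10), (-2, -1, -8, 6), (0, 0, 0,
  1), (-3, 8, 23, 28), (6, -1, 17, -26), (3, 1, 11, -10), (-3, 10, 27, 32), (6, 1, 27, -22), (4, 3, 19,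
  -10), (-1, 2, 7, 8), (6, -3, 17, -30), (-6, -3, -20, 18), (0, 1, 3, 5), (0, 0, 4, 3), (1, -2, -5, -5),
  (-4, 2, -10, 19), (-6, -3, -24, 17)]

def cv (u : Z4) : V := ![u.1, u.2.1, u.2.2.1, u.2.2.2]
def ent (d : List Z4) (a : ℕ) : Z4 := d.getD a 0
def vec (d : List Z4) (a : ℕ) : V := cv (ent d a)
def Dz (u w : Z4) : ℤ := u.2.2.1 * w.2.2.2 - u.2.2.2 * w.2.2.1
def vz (x u w : Z4) : Prop :=
  x.1 * Dz u w + x.2.2.1 * (w.1 * u.2.2.2 - u.1 * w.2.2.2) + x.2.2.2 * (u.1 * w.2.2.1 - w.1 * u.2.2.1) = 0 ∧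
  x.2.1 * Dz u w + x.2.2.1 * (w.2.1 * u.2.2.2 - u.2.1 * w.2.2.2) +
    x.2.2.2 * (u.2.1 * w.2.2.1 - w.2.1 * u.2.2.1) = 0
instance (x u w : Z4) : Decidable (vz x u w) := by unfold vz; infer_instance
def dz (a b c d : Z4) : ℤ :=
  (a.1 * b.2.1 - a.2.1 * b.1) * Dz c d - (a.1 * c.2.1 - a.2.1 * c.1) * Dz b d +
  (a.1 * d.2.1 - a.2.1 * d.1) * Dz b c + (b.1 * c.2.1 - b.2.1 * c.1) * Dz a d -
  (b.1 * d.2.1 - b.2.1 * d.1) * Dz a c + (c.1 * d.2.1 - c.2.1 * d.1) * Dz a b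

lemma D_cv (u w : Z4) : D (cv u) (cv w) = Dz u w := by simp [D, cv, Dz]

lemma mem_cv {u w : Z4} (h : Dz u w ≠ 0) (x : Z4) : lin (cv x) ∈ K (cv u) (cv w) ↔ vz x u w := by
  rw [lin_mem (by rw [D_cv]; exact_mod_cast h), D_cv, vz]
  simp only [cv, Matrix.cons_val]
  norm_cast

lemma det_cv (u : Fin 4 → Z4) : (Matrix.of fun i => cv (u i)).det = dz (u 0) (u 1) (u 2) (u 3) := by
  simp [Matrix.det_succ_row_zero, Fin.sum_univ_succ, Fin.succAbove, cv, dz, Dz]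
  ring

def rm (j : Fin 21) : Fin 21 := if j.1 < 16 then ⟨(j.1 - 7) / 3, by omega⟩ else 6
def ot (j : Fin 21) : Fin 21 := if j.1 < 16 then ⟨3 + (j.1 - 7) % 3, by omega⟩ else ⟨j.1 - 15, by omega⟩
def E : List (Fin 21 × Fin 21) := [(0, 1), (0, 2), (1, 2), (3, 4), (3, 5), (4, 5), (0, 6)]

def Ok (d : List Z4) : Prop :=
  (∀ a b : Fin 21, a ≠ b → Dz (ent d a) (ent d b) ≠ 0) ∧
  (∀ j : Fin 21, 7 ≤ j.1 → rm j < j ∧ ot j < j ∧ ot j ≠ rm j ∧ vz (ent d (ot j)) (ent d j) (ent d (rm j))) ∧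
  (∀ j : Fin 21, 7 ≤ j.1 → ∀ c : Fin 21, c < j → c ≠ rm j → ∀ e : Fin 21, e ≠ j → e ≠ c → e ≠ rm j →
    ¬ vz (ent d e) (ent d j) (ent d c)) ∧
  ∀ a b : Fin 21, a ≠ b → ((∀ c : Fin 21, 7 ≤ c.1 → ¬ vz (ent d c) (ent d a) (ent d b)) ↔
    (a, b) ∈ E ∨ (b, a) ∈ E)

lemma okA : Ok dA := by refine ⟨?_, ?_, ?_, ?_⟩ <;> decide +kernel
lemma okB : Ok dB := by refine ⟨?_, ?_, ?_, ?_⟩ <;> decide +kernel

lemma dets : ∀ a b : Fin 21, a < b → ∀ c : Fin 21, b < c → ∀ e : Fin 21, c < e →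
    (dz (ent dA a) (ent dA b) (ent dA c) (ent dA e) = 0 ↔ dz (ent dB a) (ent dB b) (ent dB c) (ent dB e) = 0) := by
  decide +kernel

end Pool.Agent.H.MP_7f7c16_ag
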