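import Pool.Agent.H.MP_7f7c16_ag.E

set_option autoImplicit false

namespace Pool.Agent.H.MP_7f7c16_ag

open MvPolynomial

section
variable {d : List Z4} (h : Ok d)
include h

lemma hD (a b : Fin 21) (e : a ≠ b) : D (vec d a) (vec d b) ≠ 0 := by
  rw [vec, vec, D_cv]; exact_mod_cast h.1 a b e

lemma hV (a b : Fin 21) (e : a ≠ b) (c : ℕ) :
    lin (vec d c) ∈ K (vec d a) (vec d b) ↔ vz (ent d c) (ent d a) (ent d b) := mem_cv (h.1 a b e) _

lemma h0 (a : Fin 21) : vec d a ≠ 0 := fun e => by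
  obtain ⟨b, hb⟩ := exists_ne a
  exact hD h a b hb.symm (by simp [D, e])

lemma h2 (a b : Fin 21) (e : a ≠ b) : LinearIndependent ℚ ![vec d a, vec d b] := by
  rw [LinearIndependent.pair_iff]
  intro s t c
  have c2 := congrFun c 2
  have c3 := congrFun c 3
  simp only [Pi.add_apply, Pi.smul_apply, smul_eq_mul, Pi.zero_apply] at c2 c3
  have := hD h a b e
  exact ⟨(mul_eq_zero.1 (by rw [D]; linear_combination vec d b 3 * c2 - vec d b 2 * c3)).resolve_right this,
    (mul_eq_zero.1 (by rw [D]; linear_combination vec d a 2 * c3 - vec d a 3 * c2)).resolve_right this⟩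

lemma s7 (L : V × V) : L ∈ St (fun a : Fin 21 => vec d a) 7 ↔
    ∃ a b : Fin 21, a ≠ b ∧ ((a, b) ∈ E ∨ (b, a) ∈ E) ∧ L = (vec d a, vec d b) :=
  exists₂_congr fun a b => and_congr_right fun e => and_congr_left' (by
    rw [← h.2.2.2 a b e]; simp only [hV h a b e])

lemma mE (a b : Fin 21) (e1 : a ≠ b) (e2 : (a, b) ∈ E) :
    (vec d a, vec d b) ∈ St (fun a : Fin 21 => vec d a) 7 := (s7 h _).2 ⟨a, b, e1, .inl e2, rfl⟩

lemma main : (W (IL (St (fun a : Fin 21 => vec d a) 7)) → CM (R ⧸ (Ideal.span (Set.range fun i =>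
      pderiv i (∏ a : Fin 21, lin (vec d a)))).radical)) ∧ (N (St (fun a : Fin 21 => vec d a) 7) →
      ¬ CM (R ⧸ (Ideal.span (Set.range fun i => pderiv i (∏ a : Fin 21, lin (vec d a)))).radical)) := by
  obtain ⟨c1, c2⟩ := chain (fun a : Fin 21 => vec d a) (hD h) rm ot 7 (fun j e => by
    obtain ⟨t1, t2, t3, t4⟩ := h.2.1 j e
    exact ⟨t1, t2, t3, (hV h _ _ t1.ne' _).2 t4⟩) (fun j c e t1 t2 t3 t4 t5 t6 => by
    rw [hV h _ _ t2.ne']; exact h.2.2.1 j t1 c t2 t3 e t4 t5 t6) 21 (by norm_num) le_rfl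
  obtain ⟨r1, r2⟩ := rad (n := 20) (fun a : Fin 21 => vec d a) (hD h) (h0 h)
  have e : St (fun a : Fin 21 => vec d a) 21 = {L | ∃ a b : Fin 21, a ≠ b ∧ L = (vec d a, vec d b)} := by
    ext L
    exact exists₂_congr fun a b => and_congr_right' (and_iff_right fun c hc => absurd c.2 (not_lt.2 hc))
  rw [e] at c1 c2
  refine ⟨fun w => cm _ Ideal.Quotient.mk_surjective ?_ ?_, fun w => not_cm _ Ideal.Quotient.mk_surjective
    ?_ ?_ (Ideal.mk_ker.trans r2) (c2 w)⟩
  · rw [Ideal.mk_ker, r2]; exact c1 w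
  · rw [Ideal.mk_ker, r2]; exact r1
  · rintro _ ⟨a, b, e, rfl⟩; exact hD h a b e
  · exact (Set.finite_range fun p : Fin 21 × Fin 21 => (vec d p.1, vec d p.2)).subset
      (by rintro _ ⟨a, b, -, rfl⟩; exact ⟨(a, b), rfl⟩)

lemma cases7 {L : V × V} (hL : L ∈ St (fun a : Fin 21 => vec d a) 7) :
    ∃ P, K L.1 L.2 = P ∧ (P = K (vec d 0) (vec d 1) ∨ P = K (vec d 0) (vec d 2) ∨ P = K (vec d 1) (vec d 2) ∨
      P = K (vec d 3) (vec d 4) ∨ P = K (vec d 3) (vec d 5) ∨ P = K (vec d 4) (vec d 5) ∨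
      P = K (vec d 0) (vec d 6)) := by
  obtain ⟨a, b, -, e, rfl⟩ := (s7 h L).1 hL
  refine ⟨_, rfl, ?_⟩
  have sy : K (vec d a) (vec d b) = K (vec d b) (vec d a) := by rw [K, K, Set.pair_comm]
  simp only [E, List.mem_cons, Prod.mk.injEq, List.not_mem_nil, or_false] at e
  rcases e with e | e
  · rcases e with e | e | e | e | e | e | e <;> simp [e.1, e.2]
  · rw [sy]
    rcases e with e | e | e | e | e | e | e <;> simp [e.1, e.2]

end

lemma lin_vec (d : List Z4) (a : ℕ) : lin (vec d a) = ((ent d a).1 : R) * X 0 + ((ent d a).2.1 : R) * X 1 +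
    ((ent d a).2.2.1 : R) * X 2 + ((ent d a).2.2.2 : R) * X 3 := by simp [lin, vec, cv, Fin.sum_univ_four]

lemma tri {P : Ideal R} {x y z : R} (h : (x ∈ P ∧ y ∈ P) ∨ (x ∈ P ∧ z ∈ P) ∨ (y ∈ P ∧ z ∈ P)) :
    y * z + x * z + x * y ∈ P := by
  rcases h with h | h | h
  · exact add_mem (add_mem (P.mul_mem_right _ h.2) (P.mul_mem_right _ h.1)) (P.mul_mem_right _ h.1)
  · exact add_mem (add_mem (P.mul_mem_left _ h.2) (P.mul_mem_right _ h.1)) (P.mul_mem_right _ h.1)
  · exact add_mem (add_mem (P.mul_mem_right _ h.1) (P.mul_mem_left _ h.2)) (P.mul_mem_left _ h.1)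

lemma unit_mem (P : Ideal R) (c : ℚ) (hc : c ≠ 0) {x : R} (e : C c * x ∈ P) : x ∈ P :=
  (P.unit_mul_mem_iff_mem ((IsUnit.mk0 c hc).map C)).1 e

lemma dd (d : List Z4) (a b : ℕ) (e : Dz (ent d a) (ent d b) ≠ 0) : D (vec d a) (vec d b) ≠ 0 := by
  rw [vec, vec, D_cv]; exact_mod_cast e

lemma vv (d : List Z4) (c a b : ℕ) (e : Dz (ent d a) (ent d b) ≠ 0) :
    lin (vec d c) ∈ K (vec d a) (vec d b) ↔ vz (ent d c) (ent d a) (ent d b) := mem_cv e _

lemma same (T : Set (Fin 21)) : LinearIndepOn ℚ (fun a : Fin 21 => vec dA a) T ↔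
    LinearIndepOn ℚ (fun a : Fin 21 => vec dB a) T := by
  have sp : ∀ d, dz (ent d 0) (ent d 1) (ent d 2) (ent d 6) ≠ 0 →
      ∀ x, x ∈ Submodule.span ℚ (Set.range fun a : Fin 21 => vec d a) := fun d e x => by
    have : (Matrix.of fun i : Fin 4 => cv (ent d ((![0, 1, 2, 6] i : Fin 21)))).det ≠ 0 := by
      rw [det_cv]; exact_mod_cast e
    rw [← isUnit_iff_ne_zero, ← Matrix.isUnit_iff_isUnit_det, ← Matrix.linearIndependent_rows_iff_isUnit] at this
    refine Submodule.span_mono ?_ ((this.span_eq_top_of_card_eq_finrank (by simp)).ge Submodule.mem_top)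
    rintro _ ⟨i, rfl⟩
    exact ⟨![0, 1, 2, 6] i, rfl⟩
  have de : ∀ e : Fin 4 → Fin 21, StrictMono e → ((Matrix.of fun i => vec dA (e i)).det ≠ 0 ↔
      (Matrix.of fun i => vec dB (e i)).det ≠ 0) := fun e he => by
    simp only [vec, det_cv, Ne, Int.cast_eq_zero]
    exact (dets _ _ (he (by decide)) _ (he (by decide)) _ (he (by decide))).not
  exact ⟨indep _ _ (sp _ (by decide)) (fun e he => (de e he).1) T,
    indep _ _ (sp _ (by decide)) (fun e he => (de e he).2) T⟩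

lemma mK {u w : V} {f : R} (a b : R) (h : a * lin u + b * lin w = f) : f ∈ K u w :=
  Ideal.mem_span_pair.2 ⟨a, b, h⟩

attribute [local irreducible] vec lin K

lemma wA : W (IL (St (fun a : Fin 21 => vec dA a) 7)) := by
  have hS : ∀ L ∈ St (fun a : Fin 21 => vec dA a) 7, D L.1 L.2 ≠ 0 := by
    rintro _ ⟨a, b, e, -, rfl⟩; exact hD okA a b e
  have Q : lin (vec dA 4) * lin (vec dA 5) + lin (vec dA 3) * lin (vec dA 5) + lin (vec dA 3) * lin (vec dA 4) =
      9 * (lin (vec dA 1) * lin (vec dA 2) + lin (vec dA 0) * lin (vec dA 2) + lin (vec dA 0) * lin (vec dA 1)) := by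
    simp only [lin_vec]; norm_num [ent, dA]; ring
  refine (step hS (vec dA 0) [vec dA 1, vec dA 2, vec dA 6] (fun _ => Iff.rfl) ?_ ?_
    (-(lin (vec dA 1) + lin (vec dA 2)) * lin (vec dA 6)) ?_ ?_).1 ((step (fun L l => hS L l.1) (vec dA 3)
    [vec dA 4, vec dA 5] (fun _ => Iff.rfl) ?_ ?_ (-(lin (vec dA 4) + lin (vec dA 5))) ?_ ?_).1
    ((step (S' := ∅) (fun L l => hS L l.1.1) (vec dA 21) [vec dA 1, vec dA 4] ?_ ?_ ?_ 0 ?_ ?_).1
      (by simpa [IL] using W_top)))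
  · simp only [List.forall_mem_cons]
    exact ⟨dd _ _ _ (by decide), dd _ _ _ (by decide), dd _ _ _ (by decide), by simp⟩
  · simp only [List.pairwise_cons, List.forall_mem_cons, vv dA _ 0 2 (by decide), vv dA _ 0 6 (by decide)]
    simp; decide
  · rw [memIL, show (List.map lin [vec dA 1, vec dA 2, vec dA 6]).prod - _ = (lin (vec dA 1) * lin (vec dA 2) +
      lin (vec dA 0) * lin (vec dA 2) + lin (vec dA 0) * lin (vec dA 1)) * lin (vec dA 6) by simp; ring]
    intro L l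
    obtain ⟨P, e, c⟩ := cases7 okA l
    rw [e]
    rcases c with rfl | rfl | rfl | rfl | rfl | rfl | rfl <;>
      first | exact Ideal.mul_mem_left _ _ (m2 _ _) | exact Ideal.mul_mem_right _ _ (tri (by simp [m1, m2])) |
        exact Ideal.mul_mem_right _ _ (unit_mem _ 9 (by norm_num) (Q ▸ tri (by simp [m1, m2])))
  · simp only [List.forall_mem_cons]
    exact ⟨⟨_, mE okA 0 1 (by decide) (by decide), m1 _ _, m2 _ _⟩,
      ⟨_, mE okA 0 2 (by decide) (by decide), m1 _ _, m2 _ _⟩,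
      ⟨_, mE okA 0 6 (by decide) (by decide), m1 _ _, m2 _ _⟩, by simp⟩
  · simp only [List.forall_mem_cons]
    exact ⟨dd _ _ _ (by decide), dd _ _ _ (by decide), by simp⟩
  · simp only [List.pairwise_cons, List.forall_mem_cons, vv dA _ 3 5 (by decide)]
    simp; decide
  · refine memIL.2 ?_
    rw [show (List.map lin [vec dA 4, vec dA 5]).prod - _ = lin (vec dA 4) * lin (vec dA 5) +
      lin (vec dA 3) * lin (vec dA 5) + lin (vec dA 3) * lin (vec dA 4) by simp; ring]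
    rintro L ⟨l, l'⟩
    obtain ⟨P, e, c⟩ := cases7 okA l
    rw [e] at l' ⊢
    rcases c with rfl | rfl | rfl | rfl | rfl | rfl | rfl <;>
      first | exact absurd (m1 _ _) l' | exact tri (by simp [m1, m2]) |
        exact Q ▸ Ideal.mul_mem_left _ _ (tri (by simp [m1, m2]))
  · simp only [List.forall_mem_cons]
    exact ⟨⟨_, ⟨mE okA 3 4 (by decide) (by decide), mt (vv dA 0 3 4 (by decide)).1 (by decide)⟩, m1 _ _, m2 _ _⟩,
      ⟨_, ⟨mE okA 3 5 (by decide) (by decide), mt (vv dA 0 3 5 (by decide)).1 (by decide)⟩, m1 _ _, m2 _ _⟩,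
      by simp⟩
  · refine fun L => iff_of_false id fun ⟨⟨⟨l, l1⟩, l2⟩, l3⟩ => ?_
    obtain ⟨P, e, c⟩ := cases7 okA l
    rw [e] at l1 l2 l3
    rcases c with rfl | rfl | rfl | rfl | rfl | rfl | rfl <;>
      first | exact l1 (m1 _ _) | exact l2 (m1 _ _) | exact l3 ((vv _ _ _ _ (by decide)).2 (by decide))
  · simp only [List.forall_mem_cons]
    exact ⟨dd _ _ _ (by decide), dd _ _ _ (by decide), by simp⟩
  · simp only [List.pairwise_cons, List.forall_mem_cons, vv dA _ 21 4 (by decide)]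
    simp; decide
  · refine memIL.2 ?_
    rw [show (List.map lin [vec dA 1, vec dA 4]).prod - _ = lin (vec dA 1) * lin (vec dA 4) by simp]
    rintro L ⟨⟨l, l1⟩, l2⟩
    obtain ⟨P, e, c⟩ := cases7 okA l
    rw [e] at l1 l2 ⊢
    rcases c with rfl | rfl | rfl | rfl | rfl | rfl | rfl <;>
      first | exact absurd (m1 _ _) l1 | exact absurd (m1 _ _) l2 | exact Ideal.mul_mem_right _ _ (m1 _ _) |
        exact Ideal.mul_mem_left _ _ (m1 _ _)
  · simp only [List.forall_mem_cons]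
    exact ⟨⟨_, ⟨⟨mE okA 1 2 (by decide) (by decide), mt (vv dA 0 1 2 (by decide)).1 (by decide)⟩,
      mt (vv dA 3 1 2 (by decide)).1 (by decide)⟩, (vv dA 21 1 2 (by decide)).2 (by decide), m1 _ _⟩,
      ⟨_, ⟨⟨mE okA 4 5 (by decide) (by decide), mt (vv dA 0 4 5 (by decide)).1 (by decide)⟩,
      mt (vv dA 3 4 5 (by decide)).1 (by decide)⟩, (vv dA 21 4 5 (by decide)).2 (by decide), m1 _ _⟩, by simp⟩

lemma nB : N (St (fun a : Fin 21 => vec dB a) 7) := by
  classical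
  have key : ∀ x (a b c e : ℤ), 6 * x = a * lin (vec dB 0) + b * lin (vec dB 6) + c * lin (vec dB 3) +
      e * lin (vec dB 4) → ∃ f, ∀ L ∈ St (fun a : Fin 21 => vec dB a) 7, f - x * (if lin (vec dB 6) ∈ K L.1 L.2
        then lin (vec dB 1) * lin (vec dB 2) else 0) ∈ K L.1 L.2 := fun x a b c e hx => by
    have e1 : lin (vec dB 4) + lin (vec dB 5) = -(lin (vec dB 2) + 4 * lin (vec dB 0)) := by
      simp only [lin_vec]; norm_num [ent, dB]; ring
    have e2 : 2 * lin (vec dB 5) - lin (vec dB 3) = 4 * lin (vec dB 2) - 5 * lin (vec dB 0) := by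
      simp only [lin_vec]; norm_num [ent, dB]; ring
    have e3 : (C 24 : R) * C (24 : ℚ)⁻¹ = 1 := by rw [← C_mul]; norm_num
    refine ⟨C (24 : ℚ)⁻¹ * (lin (vec dB 1) * (4 * (c : R) * lin (vec dB 3) * (lin (vec dB 2) + 4 * lin (vec dB 0)) +
      (e : R) * lin (vec dB 4) * (4 * lin (vec dB 2) - 5 * lin (vec dB 0)))), fun L l => ?_⟩
    obtain ⟨P, e', c'⟩ := cases7 okB l
    rw [e']
    refine unit_mem _ 24 (by norm_num) ?_
    rw [mul_sub, ← mul_assoc, e3, one_mul, show (C 24 : R) = 24 from rfl]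
    rcases c' with rfl | rfl | rfl | rfl | rfl | rfl | rfl
    rotate_right
    · rw [if_pos (m2 _ _)]
      exact mK (lin (vec dB 1) * (16 * c * lin (vec dB 3) - 5 * e * lin (vec dB 4) -
        4 * a * lin (vec dB 2))) (-4 * b * lin (vec dB 1) * lin (vec dB 2)) (by
          linear_combination 4 * lin (vec dB 1) * lin (vec dB 2) * hx)
    all_goals rw [if_neg (mt (vv _ _ _ _ (by decide)).1 (by decide)), mul_zero, mul_zero, sub_zero]
    · exact Ideal.mul_mem_right _ _ (m2 _ _)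
    · exact mK (lin (vec dB 1) * (16 * c * lin (vec dB 3) - 5 * e * lin (vec dB 4)))
        (lin (vec dB 1) * (4 * c * lin (vec dB 3) + 4 * e * lin (vec dB 4))) (by ring)
    · exact Ideal.mul_mem_right _ _ (m1 _ _)
    · exact Ideal.mul_mem_left _ _ (add_mem (Ideal.mul_mem_right _ _ (Ideal.mul_mem_left _ _ (m1 _ _)))
        (Ideal.mul_mem_right _ _ (Ideal.mul_mem_left _ _ (m2 _ _))))
    · exact Ideal.mul_mem_left _ _ (add_mem (Ideal.mul_mem_right _ _ (Ideal.mul_mem_left _ _ (m1 _ _)))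
        (Ideal.mul_mem_left _ _ (e2 ▸ sub_mem (Ideal.mul_mem_left _ _ (m2 _ _)) (m1 _ _))))
    · exact Ideal.mul_mem_left _ _ (add_mem (Ideal.mul_mem_left _ _ (neg_mem_iff.1
        (e1 ▸ add_mem (m1 _ _) (m2 _ _)))) (Ideal.mul_mem_right _ _ (Ideal.mul_mem_left _ _ (m1 _ _))))
  refine ⟨fun L => if lin (vec dB 6) ∈ K L.1 L.2 then lin (vec dB 1) * lin (vec dB 2) else 0, fun i => ?_,
    fun ⟨f, hf⟩ => ?_⟩
  · fin_cases i
    · exact key (X 0) 15 24 3 6 (by simp only [lin_vec]; norm_num [ent, dB]; ring)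
    · exact key (X 1) 15 (-12) 1 8 (by simp only [lin_vec]; norm_num [ent, dB]; ring)
    · exact key (X 2) (-3) 0 (-1) (-2) (by simp only [lin_vec]; norm_num [ent, dB]; ring)
    · exact key (X 3) 0 6 0 0 (by simp only [lin_vec]; norm_num [ent, dB])
  obtain ⟨c, a, b, hq⟩ := quad f
  have z : ∀ (i j : Fin 21) (v : V), i ≠ j → (i, j) ∈ E → ¬ vz (ent dB 6) (ent dB i) (ent dB j) →
      ∑ k, vec dB i k * v k = 0 → ∑ k, vec dB j k * v k = 0 → ∑ i, ∑ j, b i j * v i * v j = 0 :=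
    fun i j v e1 e2 e3 e4 e5 => by
      have := ray_K e4 e5 (hf _ (mE okB i j e1 e2))
      simp only [if_neg (mt (hV okB i j e1 6).1 e3), sub_zero] at this
      rw [← (hq v).2.2, this, Polynomial.coeff_zero]
  have z1 := z 0 1 ![-3, -3, 1, 0] (by decide) (by decide) (by decide)
  have z2 := z 0 2 ![0, 1, 0, 0] (by decide) (by decide) (by decide)
  have z3 := z 1 2 ![1, 0, 0, 0] (by decide) (by decide) (by decide)
  have z4 := z 3 4 ![5, 5, -1, 0] (by decide) (by decide) (by decide)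
  have z5 := z 3 5 ![11, 18, -5, 0] (by decide) (by decide) (by decide)
  have z6 := z 4 5 ![-13, -6, 4, 0] (by decide) (by decide) (by decide)
  have z7 := ray_K (v := ![-3, -2, 1, 0]) (by norm_num [Fin.sum_univ_succ, vec, cv, ent, dB])
    (by norm_num [Fin.sum_univ_succ, vec, cv, ent, dB]) (hf _ (mE okB 0 6 (by decide) (by decide)))
  simp only [if_pos (show lin (vec dB 6) ∈ K (vec dB (0 : Fin 21)) (vec dB (6 : Fin 21)) from m2 _ _), map_sub,
    map_mul, ray_lin, sub_eq_zero] at z7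
  have z8 := (hq ![-3, -2, 1, 0]).2.2
  rw [z7, mul_mul_mul_comm, ← Polynomial.C_mul, ← sq, Polynomial.coeff_C_mul, Polynomial.coeff_X_pow] at z8
  norm_num [Fin.sum_univ_succ, vec, cv, ent, dB] at z1 z2 z3 z4 z5 z6 z8
  linarith

end Pool.Agent.H.MP_7f7c16_ag
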